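import Pool.Agent.TH152.AC.Dual

/-!
A stronger inequality for the bases of an arrangement which is neither reducible nor a set of
`n + 2` hyperplanes in general position: the slack is `1 / (n + 1)`.
-/

set_option autoImplicit false

open Pool.Agent.W602.Cov Module Pool.Agent.TH152.AC

namespace Pool.Agent.TH756.AR

variable {n q : ℕ}

/-- In suitable linear coordinates `X 0, ..., X n` each hyperplane is one of `X j = 0` or
`X 0 + ... + X n = 0`: up to repetitions these are `n + 2` hyperplanes in general position (or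
fewer). -/
def Simplicial (ℓ : Fin q → Form n) : Prop :=
  ∃ X : Basis (Fin (n + 1)) ℂ (Form n), ∀ i,
    (∃ c : ℂ, ℓ i = c • ∑ j, X j) ∨ ∃ (j : Fin (n + 1)) (c : ℂ), ℓ i = c • X j

variable {ℓ : Fin q → Form n} {b : Basis (Fin (n + 1)) ℂ (Form n)} {B : Fin (n + 1) → Fin q}

/-- the exchanges which enter `F` -/
def negs (B : Fin (n + 1) → Fin q) (T : Finset (Fin (n + 1) × Fin q)) (F : Finset (Fin q)) :
    Finset (Fin (n + 1) × Fin q) := T.filter fun p => B p.1 ∉ F ∧ p.2 ∈ F

theorem mem_negs {T : Finset (Fin (n + 1) × Fin q)} {F : Finset (Fin q)}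
    {p : Fin (n + 1) × Fin q} : p ∈ negs B T F ↔ p ∈ T ∧ B p.1 ∉ F ∧ p.2 ∈ F := by
  unfold negs
  rw [Finset.mem_filter]

/-- the rank of `F` is at most one more than the number of elements of `B` in `F` -/
def Small (ℓ : Fin q → Form n) (B : Fin (n + 1) → Fin q) (F : Finset (Fin q)) : Prop :=
  finrank ℂ (Submodule.span ℂ (ℓ '' (F : Set (Fin q)))) ≤
    (Finset.univ.filter fun a => B a ∈ F).card + 1

/-- the support of a form -/
noncomputable def supp (b : Basis (Fin (n + 1)) ℂ (Form n)) (φ : Form n) : Finset (Fin (n + 1)) :=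
  Finset.univ.filter fun a => b.repr φ a ≠ 0

theorem mem_supp {φ : Form n} {a : Fin (n + 1)} : a ∈ supp b φ ↔ b.repr φ a ≠ 0 := by
  unfold supp
  rw [Finset.mem_filter]
  simp

/-- the span of the elements of the basis in `F` -/
def core (b : Basis (Fin (n + 1)) ℂ (Form n)) (B : Fin (n + 1) → Fin q) (F : Finset (Fin q)) :
    Submodule ℂ (Form n) := Submodule.span ℂ (b '' {a | B a ∈ F})

theorem mem_core {F : Finset (Fin q)} {φ : Form n} :
    φ ∈ core b B F ↔ ∀ a, b.repr φ a ≠ 0 → B a ∈ F := by
  unfold core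
  rw [b.mem_span_image]
  constructor
  · intro h a ha
    exact h (Finsupp.mem_support_iff.2 ha)
  · intro h a ha
    exact h a (Finsupp.mem_support_iff.1 ha)

theorem core_le (hb : ∀ a, b a = ℓ (B a)) (F : Finset (Fin q)) :
    core b B F ≤ Submodule.span ℂ (ℓ '' (F : Set (Fin q))) := by
  unfold core
  rw [Submodule.span_le]
  rintro _ ⟨a, ha, rfl⟩
  rw [hb a]
  exact Submodule.subset_span ⟨B a, ha, rfl⟩

theorem finrank_core (hb : ∀ a, b a = ℓ (B a)) (F : Finset (Fin q)) :
    finrank ℂ (core b B F) = (Finset.univ.filter fun a => B a ∈ F).card :=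
  finrank_part hb F

/-- two independent elements modulo the core -/
theorem not_small (hb : ∀ a, b a = ℓ (B a)) {F : Finset (Fin q)} {f g : Fin q} (hf : f ∈ F)
    (hg : g ∈ F) (hf' : ℓ f ∉ core b B F) (hg' : ∀ c : ℂ, ℓ g - c • ℓ f ∉ core b B F) :
    ¬ Small ℓ B F := by
  intro hs
  unfold Small at hs
  have h1 : core b B F < core b B F ⊔ Submodule.span ℂ {ℓ f} := by
    refine lt_of_le_of_ne le_sup_left fun he => hf' ?_
    rw [he]
    exact (le_sup_right : Submodule.span ℂ {ℓ f} ≤ _) (Submodule.mem_span_singleton_self _)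
  have h2 : core b B F ⊔ Submodule.span ℂ {ℓ f} <
      (core b B F ⊔ Submodule.span ℂ {ℓ f}) ⊔ Submodule.span ℂ {ℓ g} := by
    refine lt_of_le_of_ne le_sup_left fun he => ?_
    have h3 : ℓ g ∈ core b B F ⊔ Submodule.span ℂ {ℓ f} := by
      rw [he]
      exact (le_sup_right : Submodule.span ℂ {ℓ g} ≤ _) (Submodule.mem_span_singleton_self _)
    obtain ⟨φ, hφ, ψ, hψ, hsum⟩ := Submodule.mem_sup.1 h3
    obtain ⟨c, rfl⟩ := Submodule.mem_span_singleton.1 hψ
    apply hg' c
    rw [← hsum, add_sub_cancel_right]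
    exact hφ
  have h3 := Submodule.finrank_lt_finrank_of_lt h1
  have h4 := Submodule.finrank_lt_finrank_of_lt h2
  have h5 : (core b B F ⊔ Submodule.span ℂ {ℓ f}) ⊔ Submodule.span ℂ {ℓ g} ≤
      Submodule.span ℂ (ℓ '' (F : Set (Fin q))) := by
    refine sup_le (sup_le (core_le hb F) ?_) ?_
    · rw [Submodule.span_singleton_le_iff_mem]
      exact Submodule.subset_span ⟨f, hf, rfl⟩
    · rw [Submodule.span_singleton_le_iff_mem]
      exact Submodule.subset_span ⟨g, hg, rfl⟩
  have h6 := Submodule.finrank_mono h5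
  rw [finrank_core hb] at h3
  omega

/-- a system of exchanges which begins with all exchanges of `f1`, whose support is maximal -/
structure Good2 (ℓ : Fin q → Form n) (b : Basis (Fin (n + 1)) ℂ (Form n)) (B : Fin (n + 1) → Fin q)
    (f1 : Fin q) (U : Finset (Fin (n + 1))) (T : Finset (Fin (n + 1) × Fin q)) : Prop where
  good : Good ℓ b B U T
  two : 2 ≤ U.card
  neg2 : ∀ F : Finset (Fin q), Small ℓ B F → (negs B T F).card + 1 ≤ U.card ∨
    (U = supp b (ℓ f1) ∧ (negs B T F).card ≤ U.card ∧ f1 ∈ F ∧ ∀ a ∈ U, B a ∉ F)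

theorem good2_init (hb : ∀ a, b a = ℓ (B a)) (f1 : Fin q) (h2 : 2 ≤ (supp b (ℓ f1)).card) :
    Good2 ℓ b B f1 (supp b (ℓ f1)) ((supp b (ℓ f1)).image fun a => (a, f1)) := by
  classical
  set U := supp b (ℓ f1) with hU
  have hTmem : ∀ p : Fin (n + 1) × Fin q, p ∈ U.image (fun a => (a, f1)) ↔ p.1 ∈ U ∧ p.2 = f1 := by
    intro p
    rw [Finset.mem_image]
    constructor
    · rintro ⟨a, ha, rfl⟩
      exact ⟨ha, rfl⟩
    · rintro ⟨h1, h2⟩
      exact ⟨p.1, h1, by rw [← h2]⟩
  have hle : ∀ F, (negs B (U.image fun a => (a, f1)) F).card ≤ U.card := fun F =>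
    (Finset.card_filter_le _ _).trans Finset.card_image_le
  -- if not all exchanges enter `F` then the count is smaller
  have hcase : ∀ F : Finset (Fin q), (negs B (U.image fun a => (a, f1)) F).card + 1 ≤ U.card ∨
      (f1 ∈ F ∧ ∀ a ∈ U, B a ∉ F) := by
    intro F
    by_cases h : f1 ∈ F ∧ ∀ a ∈ U, B a ∉ F
    · exact Or.inr h
    left
    have hex : ∃ a ∈ U, (a, f1) ∉ negs B (U.image fun a => (a, f1)) F := by
      by_contra hcon
      push Not at hcon
      apply h
      obtain ⟨a, ha⟩ : U.Nonempty := Finset.card_pos.1 (by omega)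
      exact ⟨(mem_negs.1 (hcon a ha)).2.2, fun a ha => (mem_negs.1 (hcon a ha)).2.1⟩
    obtain ⟨a, ha, hna⟩ := hex
    have hsub : negs B (U.image fun a => (a, f1)) F ⊆ (U.erase a).image fun a => (a, f1) := by
      intro p hp
      obtain ⟨h1, h2, h3⟩ := mem_negs.1 hp
      obtain ⟨h4, h5⟩ := (hTmem p).1 h1
      rw [Finset.mem_image]
      refine ⟨p.1, Finset.mem_erase.2 ⟨?_, h4⟩, by rw [← h5]⟩
      rintro rfl
      apply hna
      have : (p.1, f1) = p := by rw [← h5]
      rw [this]
      exact hp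
    have h1 := (Finset.card_le_card hsub).trans Finset.card_image_le
    rw [Finset.card_erase_of_mem ha] at h1
    omega
  refine ⟨⟨Finset.card_pos.1 (by omega), ?_, ?_, ?_, ?_⟩, h2, ?_⟩
  · intro p hp
    obtain ⟨h3, h4⟩ := (hTmem p).1 hp
    rw [h4]
    exact mem_supp.1 h3
  · intro p hp a ha
    obtain ⟨h3, h4⟩ := (hTmem p).1 hp
    rw [h4] at ha
    exact mem_supp.2 ha
  · intro F
    rcases hcase F with h | ⟨hf, hall⟩
    · refine ⟨0, core b B F, core_le hb F, ?_, ?_, ?_⟩
      · intro φ hφ a ha _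
        by_contra hne
        exact ha (mem_core.1 hφ a hne)
      · rw [finrank_core hb]
        omega
      · exact h
    · have hnotin : ℓ f1 ∉ core b B F := by
        intro h
        obtain ⟨a, ha⟩ : U.Nonempty := Finset.card_pos.1 (by omega)
        exact hall a ha (mem_core.1 h a (mem_supp.1 ha))
      have hlt : core b B F < core b B F ⊔ Submodule.span ℂ {ℓ f1} := by
        refine lt_of_le_of_ne le_sup_left fun he => hnotin ?_
        rw [he]
        exact (le_sup_right : Submodule.span ℂ {ℓ f1} ≤ _) (Submodule.mem_span_singleton_self _)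
      have hfin := Submodule.finrank_lt_finrank_of_lt hlt
      rw [finrank_core hb] at hfin
      refine ⟨1, core b B F ⊔ Submodule.span ℂ {ℓ f1}, ?_, ?_, by omega, ?_⟩
      · refine sup_le (core_le hb F) ?_
        rw [Submodule.span_singleton_le_iff_mem]
        exact Submodule.subset_span ⟨f1, hf, rfl⟩
      · intro φ hφ a ha haU
        obtain ⟨φ1, hφ1, φ2, hφ2, rfl⟩ := Submodule.mem_sup.1 hφ
        obtain ⟨c, rfl⟩ := Submodule.mem_span_singleton.1 hφ2
        have e1 : b.repr φ1 a = 0 := by
          by_contra hne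
          exact ha (mem_core.1 hφ1 a hne)
        have e2 : b.repr (ℓ f1) a = 0 := by
          by_contra hne
          exact haU (mem_supp.2 hne)
        rw [map_add, map_smul, Finsupp.add_apply, Finsupp.smul_apply, e1, e2, smul_zero, add_zero]
      · have := hle F
        unfold negs at this
        omega
  · rintro F hF ⟨a, ha, h1⟩ ⟨a', ha', h3⟩
    refine ⟨(a, f1), (hTmem _).2 ⟨ha, rfl⟩, h1, fun hf => h3 (hF f1 hf a' (mem_supp.1 ha'))⟩
  · intro F _
    rcases hcase F with h | ⟨hf, hall⟩
    · exact Or.inl h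
    · exact Or.inr ⟨rfl, hle F, hf, hall⟩

theorem good2_step (hb : ∀ a, b a = ℓ (B a)) (hr : ¬ Reducible ℓ) {f1 : Fin q}
    (hmax : ∀ f, (supp b (ℓ f)).card ≤ (supp b (ℓ f1)).card) {U : Finset (Fin (n + 1))}
    {T : Finset (Fin (n + 1) × Fin q)} (h : Good2 ℓ b B f1 U T) (hU : U ≠ Finset.univ) :
    ∃ (U' : Finset (Fin (n + 1))) (T' : Finset (Fin (n + 1) × Fin q)), Good2 ℓ b B f1 U' T' ∧
      U.card < U'.card ∧ ∀ F : Finset (Fin q), Small ℓ B F → (negs B T' F).card + 1 ≤ U'.card := by
  classical
  obtain ⟨f, ⟨a0, ha0U, ha0⟩, a1, ha1U, ha1⟩ := Pool.Agent.W392.CG.cross ℓ b hr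
    (U : Set (Fin (n + 1))) (by exact_mod_cast h.good.ne) (by
      rw [Set.nonempty_compl]
      intro hc
      apply hU
      ext a
      have : a ∈ (U : Set (Fin (n + 1))) := by rw [hc]; trivial
      simpa using this)
  have ha0U' : a0 ∈ U := by simpa using ha0U
  have ha1U' : a1 ∉ U := by simpa using ha1U
  set N : Finset (Fin (n + 1)) :=
    Finset.univ.filter (fun a => a ∉ U ∧ b.repr (ℓ f) a ≠ 0) with hN
  have hNmem : ∀ a, a ∈ N ↔ a ∉ U ∧ b.repr (ℓ f) a ≠ 0 := by
    intro a
    rw [hN, Finset.mem_filter]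
    simp
  have ha1N : a1 ∈ N := (hNmem a1).2 ⟨ha1U', ha1⟩
  have hdisj : Disjoint U N := by
    rw [Finset.disjoint_left]
    intro a ha ha'
    exact ((hNmem a).1 ha').1 ha
  have ha0N : a0 ∉ N := fun h => ((hNmem a0).1 h).1 ha0U'
  have hsuppU : ∀ a, b.repr (ℓ f) a ≠ 0 → a ∈ U ∪ N := by
    intro a ha
    by_cases haU : a ∈ U
    · exact Finset.mem_union_left _ haU
    · exact Finset.mem_union_right _ ((hNmem a).2 ⟨haU, ha⟩)
  set E : Finset (Fin (n + 1) × Fin q) := (insert a0 N).image (fun a => (a, f)) with hE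
  have hEmem : ∀ p : Fin (n + 1) × Fin q, p ∈ E ↔ (p.1 = a0 ∨ p.1 ∈ N) ∧ p.2 = f := by
    intro p
    rw [hE, Finset.mem_image]
    constructor
    · rintro ⟨a, ha, rfl⟩
      exact ⟨Finset.mem_insert.1 ha, rfl⟩
    · rintro ⟨h1, h2⟩
      exact ⟨p.1, Finset.mem_insert.2 h1, by rw [← h2]⟩
  have hEsupp : ∀ p ∈ E, b.repr (ℓ p.2) p.1 ≠ 0 := by
    intro p hp
    obtain ⟨h1, h2⟩ := (hEmem p).1 hp
    rw [h2]
    rcases h1 with h1 | h1
    · rw [h1]
      exact ha0
    · exact ((hNmem _).1 h1).2
  have hcardU : (U ∪ N).card = U.card + N.card := Finset.card_union_of_disjoint hdisj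
  have hNpos : 1 ≤ N.card := Finset.card_pos.2 ⟨a1, ha1N⟩
  have hEcard : E.card = N.card + 1 := by
    rw [hE, Finset.card_image_of_injective _ (fun a a' haa => (Prod.mk.inj haa).1),
      Finset.card_insert_of_notMem ha0N]
  have hcount : ∀ F, (negs B (T ∪ E) F).card ≤ (negs B T F).card + (negs B E F).card := by
    intro F
    unfold negs
    rw [Finset.filter_union]
    exact Finset.card_union_le _ _
  have hone : ∀ F, (∀ a ∈ N, B a ∈ F) → (negs B E F).card ≤ 1 := by
    intro F hall
    rw [Finset.card_le_one]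
    intro p hp p' hp'
    obtain ⟨hp1, hp2, hp3⟩ := mem_negs.1 hp
    obtain ⟨hp1', hp2', hp3'⟩ := mem_negs.1 hp'
    obtain ⟨h1, h2⟩ := (hEmem p).1 hp1
    obtain ⟨h1', h2'⟩ := (hEmem p').1 hp1'
    have e1 : p.1 = a0 := by
      rcases h1 with h1 | h1
      · exact h1
      · exact absurd (hall _ h1) hp2
    have e2 : p'.1 = a0 := by
      rcases h1' with h1 | h1
      · exact h1
      · exact absurd (hall _ h1) hp2'
    exact Prod.ext (e1.trans e2.symm) (h2.trans h2'.symm)
  have hkey : ∀ F : Finset (Fin q), Small ℓ B F → (negs B (T ∪ E) F).card + 1 ≤ (U ∪ N).card := by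
    intro F hs
    have hc := hcount F
    by_cases hfF : f ∈ F
    · by_cases hall : ∀ a ∈ N, B a ∈ F
      · have hE1 := hone F hall
        rcases h.neg2 F hs with h3 | ⟨h3, h4, h5, h6⟩
        · omega
        · by_cases hE0 : (negs B E F).card = 0
          · omega
          · -- the anchor enters `F`
            obtain ⟨p, hp⟩ := Finset.card_pos.1 (Nat.pos_of_ne_zero hE0)
            obtain ⟨hp1, hp2, -⟩ := mem_negs.1 hp
            have e1 : p.1 = a0 := by
              rcases ((hEmem p).1 hp1).1 with h1 | h1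
              · exact h1
              · exact absurd (hall _ h1) hp2
            rw [e1] at hp2
            exfalso
            obtain ⟨a, ha⟩ : U.Nonempty := h.good.ne
            have hf1 : ℓ f1 ∉ core b B F := by
              intro hin
              rw [h3] at ha
              exact h6 a (by rw [h3]; exact ha) (mem_core.1 hin a (mem_supp.1 ha))
            have hex : ∃ c : ℂ, ℓ f - c • ℓ f1 ∈ core b B F := by
              by_contra hcon
              push Not at hcon
              exact not_small hb h5 hfF hf1 hcon hs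
            obtain ⟨c, hcm⟩ := hex
            have hcoef : ∀ a, B a ∉ F → b.repr (ℓ f) a = c * b.repr (ℓ f1) a := by
              intro a ha
              have h7 : b.repr (ℓ f - c • ℓ f1) a = 0 := by
                by_contra hne
                exact ha (mem_core.1 hcm a hne)
              rw [map_sub, map_smul, Finsupp.sub_apply, Finsupp.smul_apply, smul_eq_mul] at h7
              exact sub_eq_zero.1 h7
            have hc0 : c ≠ 0 := by
              intro h0
              have := hcoef a0 hp2
              rw [h0, zero_mul] at this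
              exact ha0 this
            have hsub : insert a1 (supp b (ℓ f1)) ⊆ supp b (ℓ f) := by
              intro a ha
              rcases Finset.mem_insert.1 ha with rfl | ha
              · exact mem_supp.2 ha1
              · rw [mem_supp, hcoef a (h6 a (by rw [h3]; exact ha))]
                exact mul_ne_zero hc0 (mem_supp.1 ha)
            have h8 := Finset.card_le_card hsub
            rw [Finset.card_insert_of_notMem (by rw [← h3]; exact ha1U')] at h8
            have h9 := hmax f
            omega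
      · push Not at hall
        obtain ⟨a2, ha2N, ha2F⟩ := hall
        -- no earlier exchange enters `F`
        have h0 : (negs B T F).card = 0 := by
          rw [Finset.card_eq_zero, Finset.eq_empty_iff_forall_notMem]
          intro p hp
          obtain ⟨hp1, hp2, hp3⟩ := mem_negs.1 hp
          refine not_small hb hp3 hfF (fun hin => hp2 (mem_core.1 hin _ (h.good.mem p hp1)))
            (fun c hin => ?_) hs
          have h3 : b.repr (ℓ f - c • ℓ p.2) a2 = 0 := by
            by_contra hne
            exact ha2F (mem_core.1 hin a2 hne)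
          have h4 : b.repr (ℓ p.2) a2 = 0 := by
            by_contra hne
            exact ((hNmem a2).1 ha2N).1 (h.good.sub p hp1 a2 hne)
          rw [map_sub, map_smul, Finsupp.sub_apply, Finsupp.smul_apply, h4, smul_zero,
            sub_zero] at h3
          exact ((hNmem a2).1 ha2N).2 h3
        have hE1 : (negs B E F).card ≤ N.card + 1 := hEcard ▸ Finset.card_filter_le _ _
        have h2 := h.two
        omega
    · have hE0 : (negs B E F).card = 0 := by
        rw [Finset.card_eq_zero, Finset.eq_empty_iff_forall_notMem]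
        intro p hp
        obtain ⟨hp1, hp2, hp3⟩ := mem_negs.1 hp
        rw [((hEmem p).1 hp1).2] at hp3
        exact hfF hp3
      rcases h.neg2 F hs with h3 | ⟨h3, h4, -, -⟩ <;> omega
  refine ⟨U ∪ N, T ∪ E, ⟨⟨?_, ?_, ?_, ?_, ?_⟩, by have := h.two; omega,
    fun F hs => Or.inl (hkey F hs)⟩, by omega, hkey⟩
  · exact h.good.ne.mono Finset.subset_union_left
  · intro p hp
    rcases Finset.mem_union.1 hp with hp | hp
    · exact h.good.mem p hp
    · exact hEsupp p hp
  · intro p hp a ha
    rcases Finset.mem_union.1 hp with hp | hp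
    · exact Finset.mem_union_left _ (h.good.sub p hp a ha)
    · rw [((hEmem p).1 hp).2] at ha
      exact hsuppU a ha
  · intro F
    obtain ⟨j, W, hW1, hW2, hW3, hW4⟩ := h.good.neg F
    have hcount' : ((T ∪ E).filter fun p => B p.1 ∉ F ∧ p.2 ∈ F).card ≤
        (T.filter fun p => B p.1 ∉ F ∧ p.2 ∈ F).card +
          (E.filter fun p => B p.1 ∉ F ∧ p.2 ∈ F).card := hcount F
    by_cases hfF : f ∈ F
    · by_cases hall : ∀ a ∈ N, B a ∈ F
      · have hE1 : (E.filter fun p => B p.1 ∉ F ∧ p.2 ∈ F).card ≤ 1 := hone F hall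
        refine ⟨j, W, hW1, ?_, hW3, by omega⟩
        intro φ hφ a ha haU
        exact hW2 φ hφ a ha (fun h => haU (Finset.mem_union_left _ h))
      · push Not at hall
        obtain ⟨a2, ha2N, ha2F⟩ := hall
        have hE1 : (E.filter fun p => B p.1 ∉ F ∧ p.2 ∈ F).card ≤ N.card + 1 :=
          hEcard ▸ Finset.card_filter_le _ _
        have hnotin : ℓ f ∉ W := by
          intro hfW
          have h1 := hW2 _ hfW a2 ha2F ((hNmem a2).1 ha2N).1
          exact ((hNmem a2).1 ha2N).2 h1
        have hlt : W < W ⊔ Submodule.span ℂ {ℓ f} := by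
          refine lt_of_le_of_ne le_sup_left fun he => hnotin ?_
          rw [he]
          exact (le_sup_right : Submodule.span ℂ {ℓ f} ≤ _)
            (Submodule.mem_span_singleton_self _)
        have hfin := Submodule.finrank_lt_finrank_of_lt hlt
        refine ⟨j + 1, W ⊔ Submodule.span ℂ {ℓ f}, ?_, ?_, by omega, by omega⟩
        · refine sup_le hW1 ?_
          rw [Submodule.span_singleton_le_iff_mem]
          exact Submodule.subset_span ⟨f, hfF, rfl⟩
        · intro φ hφ a ha haU
          obtain ⟨φ1, hφ1, φ2, hφ2, rfl⟩ := Submodule.mem_sup.1 hφ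
          obtain ⟨c, rfl⟩ := Submodule.mem_span_singleton.1 hφ2
          have e1 := hW2 φ1 hφ1 a ha (fun h => haU (Finset.mem_union_left _ h))
          have e2 : b.repr (ℓ f) a = 0 := by
            by_contra hne
            exact haU (hsuppU a hne)
          rw [map_add, map_smul, Finsupp.add_apply, Finsupp.smul_apply, e1, e2, smul_zero,
            add_zero]
    · have hE0 : (E.filter fun p => B p.1 ∉ F ∧ p.2 ∈ F).card = 0 := by
        rw [Finset.card_eq_zero, Finset.filter_eq_empty_iff]
        intro p hp hp2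
        rw [((hEmem p).1 hp).2] at hp2
        exact hfF hp2.2
      refine ⟨j, W, hW1, ?_, hW3, by omega⟩
      intro φ hφ a ha haU
      exact hW2 φ hφ a ha (fun h => haU (Finset.mem_union_left _ h))
  · rintro F hF ⟨a, haU, haF⟩ ⟨a', haU', haF'⟩
    by_cases h1 : ∃ a ∈ U, B a ∈ F
    · by_cases h2 : ∃ a ∈ U, B a ∉ F
      · obtain ⟨p, hp, hp2⟩ := h.good.pos F hF h1 h2
        exact ⟨p, Finset.mem_union_left _ hp, hp2⟩
      · push Not at h2
        have ha'N : a' ∈ N := by
          rcases Finset.mem_union.1 haU' with h3 | h3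
          · exact absurd (h2 a' h3) haF'
          · exact h3
        refine ⟨(a0, f), Finset.mem_union_right _ ((hEmem _).2 ⟨Or.inl rfl, rfl⟩), h2 a0 ha0U',
          fun hfF => haF' (hF f hfF a' ((hNmem a').1 ha'N).2)⟩
    · push Not at h1
      have haN : a ∈ N := by
        rcases Finset.mem_union.1 haU with h3 | h3
        · exact absurd haF (h1 a h3)
        · exact h3
      exact ⟨(a, f), Finset.mem_union_right _ ((hEmem _).2 ⟨Or.inr haN, rfl⟩), haF,
        fun hfF => h1 a0 ha0U' (hF f hfF a0 ha0)⟩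

theorem good2_univ (hb : ∀ a, b a = ℓ (B a)) (hr : ¬ Reducible ℓ) {f1 : Fin q}
    (hmax : ∀ f, (supp b (ℓ f)).card ≤ (supp b (ℓ f1)).card) (h2 : 2 ≤ (supp b (ℓ f1)).card)
    (hne : supp b (ℓ f1) ≠ Finset.univ) :
    ∃ T : Finset (Fin (n + 1) × Fin q), Good ℓ b B Finset.univ T ∧
      ∀ F : Finset (Fin q), Small ℓ B F → (negs B T F).card ≤ n := by
  classical
  have key : ∀ k : ℕ, k ≤ n → ∃ (U : Finset (Fin (n + 1))) (T : Finset (Fin (n + 1) × Fin q)),
      Good2 ℓ b B f1 U T ∧ k + 1 ≤ U.card ∧ (U = Finset.univ → ∀ F : Finset (Fin q), Small ℓ B F →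
        (negs B T F).card + 1 ≤ U.card) := by
    intro k
    induction k with
    | zero => exact fun _ => ⟨_, _, good2_init hb f1 h2, by omega, fun h => absurd h hne⟩
    | succ k ih =>
      intro hk
      obtain ⟨U, T, hG, hc, hu⟩ := ih (by omega)
      by_cases hU : U = Finset.univ
      · refine ⟨U, T, hG, ?_, hu⟩
        rw [hU, Finset.card_univ, Fintype.card_fin]
        omega
      · obtain ⟨U', T', hG', hc', hu'⟩ := good2_step hb hr hmax hG hU
        exact ⟨U', T', hG', by omega, fun _ => hu'⟩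
  obtain ⟨U, T, hG, hc, hu⟩ := key n le_rfl
  have hU : U = Finset.univ := by
    apply Finset.eq_univ_of_card
    have h1 := Finset.card_le_univ U
    rw [Fintype.card_fin] at h1 ⊢
    omega
  refine ⟨T, hU ▸ hG.good, fun F hs => ?_⟩
  have h3 := hu hU F hs
  rw [hU, Finset.card_univ, Fintype.card_fin] at h3
  omega

end Pool.Agent.TH756.AR
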