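import Pool.Agent.TH756.AR.Comb

/-!
The exchange inequality with slack `1 / (n + 1)`, and the weights on the bases.
-/

set_option autoImplicit false

open Pool.Agent.W602.Cov Module Pool.Agent.TH152.AC

namespace Pool.Agent.TH756.AR

variable {n q : ℕ}
variable {ℓ : Fin q → Form n} {b : Basis (Fin (n + 1)) ℂ (Form n)} {B : Fin (n + 1) → Fin q}

theorem finish (hb : ∀ a, b a = ℓ (B a)) (hℓ : ∀ i, ℓ i ≠ 0)
    {T : Finset (Fin (n + 1) × Fin q)} (hn : 1 ≤ n) (hmem : ∀ p ∈ T, b.repr (ℓ p.2) p.1 ≠ 0)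
    (hpos : ∀ F : Finset (Fin q), (∀ i ∈ F, ∀ a, b.repr (ℓ i) a ≠ 0 → B a ∈ F) →
      (∃ a, B a ∈ F) → (∃ a, B a ∉ F) → ∃ p ∈ T, B p.1 ∈ F ∧ p.2 ∉ F)
    (hsmall : ∀ F : Finset (Fin q), Small ℓ B F → (negs B T F).card ≤ n)
    (hbig : ∀ F : Finset (Fin q), ∃ j : ℕ, (Finset.univ.filter fun a => B a ∈ F).card + j ≤
      finrank ℂ (Submodule.span ℂ (ℓ '' (F : Set (Fin q)))) ∧ (negs B T F).card ≤ n + j)
    (F : Finset (Fin q)) (hF : Proper ℓ F) :
    1 - ((n : ℤ) + 1) * (finrank ℂ (Submodule.span ℂ (ℓ '' (F : Set (Fin q)))) -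
          (Finset.univ.filter fun a => B a ∈ F).card) ≤
        ∑ p ∈ T, ((if B p.1 ∈ F then 1 else 0) - (if p.2 ∈ F then 1 else 0)) := by
  classical
  have hsum : ∑ p ∈ T, (((if B p.1 ∈ F then 1 else 0) : ℤ) - (if p.2 ∈ F then 1 else 0)) =
      ((T.filter fun p => B p.1 ∈ F ∧ p.2 ∉ F).card : ℤ) - (negs B T F).card := by
    unfold negs
    rw [Finset.card_filter, Finset.card_filter]
    push_cast
    rw [← Finset.sum_sub_distrib]
    refine Finset.sum_congr rfl fun p _ => ?_
    by_cases h1 : B p.1 ∈ F <;> by_cases h2 : p.2 ∈ F <;> simp [h1, h2]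
  rw [hsum]
  set R := finrank ℂ (Submodule.span ℂ (ℓ '' (F : Set (Fin q)))) with hR
  set c := (Finset.univ.filter fun a => B a ∈ F).card with hc
  have h6 : (0 : ℤ) ≤ ((T.filter fun p => B p.1 ∈ F ∧ p.2 ∉ F).card : ℤ) := by positivity
  obtain ⟨j, hj1, hj2⟩ := hbig F
  by_cases hdef : R = c
  · -- no deficiency
    have hspan : core b B F = Submodule.span ℂ (ℓ '' (F : Set (Fin q))) := by
      apply Submodule.eq_of_le_of_finrank_eq (core_le hb F)
      rw [finrank_core hb, ← hR, hdef]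
    have hFs : ∀ i ∈ F, ∀ a, b.repr (ℓ i) a ≠ 0 → B a ∈ F := by
      intro i hi
      have h1 : ℓ i ∈ core b B F := by
        rw [hspan]
        exact Submodule.subset_span ⟨i, hi, rfl⟩
      exact mem_core.1 h1
    obtain ⟨i0, hi0⟩ := hF.1
    have hin : ∃ a, B a ∈ F := by
      by_contra hcon
      push Not at hcon
      apply hℓ i0
      have h1 : b.repr (ℓ i0) = 0 := by
        ext a
        by_contra hne
        exact hcon a (hFs i0 hi0 a hne)
      exact (LinearEquiv.map_eq_zero_iff _).1 h1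
    have hout : ∃ a, B a ∉ F := by
      by_contra hcon
      push Not at hcon
      apply hF.2
      rw [← hspan, eq_top_iff, ← b.span_eq, Submodule.span_le]
      rintro _ ⟨a, rfl⟩
      exact Submodule.subset_span ⟨a, hcon a, rfl⟩
    obtain ⟨p, hp, hp1, hp2⟩ := hpos F hFs hin hout
    have hpos : 1 ≤ (T.filter fun p => B p.1 ∈ F ∧ p.2 ∉ F).card :=
      Finset.card_pos.2 ⟨p, Finset.mem_filter.2 ⟨hp, hp1, hp2⟩⟩
    have hneg : (negs B T F).card = 0 := by
      rw [Finset.card_eq_zero, Finset.eq_empty_iff_forall_notMem]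
      intro p' hp'
      obtain ⟨h0, h1, h2⟩ := mem_negs.1 hp'
      exact h1 (hFs _ h2 _ (hmem p' h0))
    rw [hdef, hneg]
    push_cast
    have : (1 : ℤ) ≤ ((T.filter fun p => B p.1 ∈ F ∧ p.2 ∉ F).card : ℤ) := by exact_mod_cast hpos
    linarith
  · have h1 : c + 1 ≤ R := by omega
    by_cases h2 : R ≤ c + 1
    · have h3 : R = c + 1 := le_antisymm h2 h1
      have h4 : (negs B T F).card ≤ n := hsmall F h2
      have h4' : ((negs B T F).card : ℤ) ≤ n := by exact_mod_cast h4
      rw [h3]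
      push_cast
      nlinarith
    · have h3 : c + 2 ≤ R := by omega
      have h4 : ((negs B T F).card : ℤ) ≤ n + j := by exact_mod_cast hj2
      have h5 : (j : ℤ) ≤ (R : ℤ) - c := by
        have : (c : ℤ) + j ≤ R := by exact_mod_cast hj1
        linarith
      have h7 : (2 : ℤ) ≤ (R : ℤ) - c := by
        have : (c : ℤ) + 2 ≤ R := by exact_mod_cast h3
        linarith
      have h8 : (1 : ℤ) ≤ n := by exact_mod_cast hn
      nlinarith [mul_nonneg (by linarith : (0 : ℤ) ≤ (n : ℤ) - 1)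
        (by linarith : (0 : ℤ) ≤ (R : ℤ) - c - 2)]

/-- the case of a hyperplane with full support -/
theorem full_case (hb : ∀ a, b a = ℓ (B a)) {f1 g : Fin q} (hfull : supp b (ℓ f1) = Finset.univ)
    (hg : 2 ≤ (supp b (ℓ g)).card) (hfg : ∀ c : ℂ, ℓ g ≠ c • ℓ f1) :
    ∃ T : Finset (Fin (n + 1) × Fin q), (∀ p ∈ T, b.repr (ℓ p.2) p.1 ≠ 0) ∧
      (∀ F : Finset (Fin q), (∀ i ∈ F, ∀ a, b.repr (ℓ i) a ≠ 0 → B a ∈ F) →
        (∃ a, B a ∈ F) → (∃ a, B a ∉ F) → ∃ p ∈ T, B p.1 ∈ F ∧ p.2 ∉ F) ∧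
      (∀ F : Finset (Fin q), Small ℓ B F → (negs B T F).card ≤ n) ∧
      (∀ F : Finset (Fin q), ∃ j : ℕ, (Finset.univ.filter fun a => B a ∈ F).card + j ≤
        finrank ℂ (Submodule.span ℂ (ℓ '' (F : Set (Fin q)))) ∧ (negs B T F).card ≤ n + j) := by
  classical
  obtain ⟨b0, hb0, b1, hb1, hne⟩ := Finset.one_lt_card.1 hg
  let τ : Fin (n + 1) → Fin q := fun a => if a = b0 then g else f1
  have hτ0 : τ b0 = g := if_pos rfl
  have hτ1 : ∀ a, a ≠ b0 → τ a = f1 := fun a ha => if_neg ha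
  have hall1 : ∀ a, b.repr (ℓ f1) a ≠ 0 := fun a => mem_supp.1 (by rw [hfull]; exact Finset.mem_univ a)
  let T : Finset (Fin (n + 1) × Fin q) := Finset.univ.image fun a => (a, τ a)
  have hTmem : ∀ p : Fin (n + 1) × Fin q, p ∈ T ↔ p.2 = τ p.1 := by
    intro p
    rw [Finset.mem_image]
    constructor
    · rintro ⟨a, -, rfl⟩
      rfl
    · intro h
      exact ⟨p.1, Finset.mem_univ _, by rw [← h]⟩
  have hTcard : T.card ≤ n + 1 := by
    refine Finset.card_image_le.trans ?_
    rw [Finset.card_univ, Fintype.card_fin]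
  -- if all exchanges enter `F`
  have hcase : ∀ F : Finset (Fin q), (negs B T F).card ≤ n ∨
      (g ∈ F ∧ f1 ∈ F ∧ ∀ a, B a ∉ F) := by
    intro F
    by_cases h : ∀ a, (a, τ a) ∈ negs B T F
    · right
      refine ⟨?_, ?_, fun a => (mem_negs.1 (h a)).2.1⟩
      · have := (mem_negs.1 (h b0)).2.2
        rwa [hτ0] at this
      · have := (mem_negs.1 (h b1)).2.2
        rwa [hτ1 b1 (Ne.symm hne)] at this
    · left
      push Not at h
      obtain ⟨a, ha⟩ := h
      have h1 : negs B T F ⊆ T.erase (a, τ a) := by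
        intro p hp
        refine Finset.mem_erase.2 ⟨?_, (mem_negs.1 hp).1⟩
        rintro rfl
        exact ha hp
      have h2 := Finset.card_le_card h1
      rw [Finset.card_erase_of_mem ((hTmem _).2 rfl)] at h2
      omega
  refine ⟨T, ?_, ?_, ?_, ?_⟩
  · intro p hp
    rw [(hTmem p).1 hp]
    by_cases h : p.1 = b0
    · rw [h, hτ0]
      exact mem_supp.1 hb0
    · rw [hτ1 _ h]
      exact hall1 _
  · rintro F hF ⟨a, ha⟩ ⟨a', ha'⟩
    have hf1 : f1 ∉ F := fun h => ha' (hF f1 h a' (hall1 a'))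
    by_cases h : a = b0
    · subst h
      by_cases hgF : g ∈ F
      · refine ⟨(b1, τ b1), (hTmem _).2 rfl, hF g hgF b1 (mem_supp.1 hb1), ?_⟩
        show τ b1 ∉ F
        rw [hτ1 b1 (Ne.symm hne)]
        exact hf1
      · refine ⟨(a, τ a), (hTmem _).2 rfl, ha, ?_⟩
        show τ a ∉ F
        rw [hτ0]
        exact hgF
    · refine ⟨(a, τ a), (hTmem _).2 rfl, ha, ?_⟩
      show τ a ∉ F
      rw [hτ1 a h]
      exact hf1
  · intro F hs
    rcases hcase F with h | ⟨h1, h2, h3⟩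
    · exact h
    · exfalso
      have hcore : ∀ φ : Form n, φ ∈ core b B F → φ = 0 := by
        intro φ hφ
        have : b.repr φ = 0 := by
          ext a
          by_contra hne
          exact h3 a (mem_core.1 hφ a hne)
        exact (LinearEquiv.map_eq_zero_iff _).1 this
      refine not_small hb h2 h1 (fun hin => ?_) (fun c hin => ?_) hs
      · have := hall1 b0
        rw [hcore _ hin] at this
        simp at this
      · exact hfg c (sub_eq_zero.1 (hcore _ hin))
  · intro F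
    rcases hcase F with h | ⟨h1, h2, h3⟩
    · refine ⟨0, ?_, h⟩
      rw [← finrank_core hb F, add_zero]
      exact Submodule.finrank_mono (core_le hb F)
    · refine ⟨1, ?_, (Finset.card_filter_le _ _).trans hTcard⟩
      have h4 : (Finset.univ.filter fun a => B a ∈ F).card = 0 := by
        rw [Finset.card_eq_zero, Finset.filter_eq_empty_iff]
        exact fun a _ => h3 a
      rw [h4, zero_add]
      have h5 : Submodule.span ℂ {ℓ f1} ≤ Submodule.span ℂ (ℓ '' (F : Set (Fin q))) := by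
        rw [Submodule.span_singleton_le_iff_mem]
        exact Submodule.subset_span ⟨f1, h2, rfl⟩
      have h6 := Submodule.finrank_mono h5
      have h7 : ℓ f1 ≠ 0 := by
        intro h0
        have := hall1 b0
        rw [h0] at this
        simp at this
      rw [finrank_span_singleton h7] at h6
      exact h6

/-- the arrangement consists of `n + 2` hyperplanes in general position -/
theorem simplicial_of (hb : ∀ a, b a = ℓ (B a)) {f1 : Fin q}
    (hfull : supp b (ℓ f1) = Finset.univ)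
    (h : ∀ g, (supp b (ℓ g)).card < 2 ∨ ∃ c : ℂ, ℓ g = c • ℓ f1) : Simplicial ℓ := by
  classical
  have hall1 : ∀ a, b.repr (ℓ f1) a ≠ 0 := fun a => mem_supp.1 (by rw [hfull]; exact Finset.mem_univ a)
  let u : Fin (n + 1) → ℂˣ := fun a => Units.mk0 _ (hall1 a)
  refine ⟨b.unitsSMul u, fun g => ?_⟩
  have hsum : ∑ j, b.unitsSMul u j = ℓ f1 := by
    simp only [Basis.unitsSMul_apply]
    exact b.sum_repr (ℓ f1)
  rcases h g with hg | ⟨c, hc⟩
  · right
    have hex : ∃ a, ∀ a', b.repr (ℓ g) a' ≠ 0 → a' = a := by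
      by_cases h0 : (supp b (ℓ g)).card = 0
      · refine ⟨0, fun a' ha' => ?_⟩
        rw [Finset.card_eq_zero] at h0
        have := mem_supp.2 ha'
        rw [h0] at this
        exact absurd this (Finset.notMem_empty _)
      · obtain ⟨a, ha⟩ := Finset.card_eq_one.1 (by omega : (supp b (ℓ g)).card = 1)
        refine ⟨a, fun a' ha' => ?_⟩
        have := mem_supp.2 ha'
        rw [ha, Finset.mem_singleton] at this
        exact this
    obtain ⟨a, ha⟩ := hex
    refine ⟨a, b.repr (ℓ g) a * (b.repr (ℓ f1) a)⁻¹, ?_⟩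
    rw [Basis.unitsSMul_apply]
    have h1 : (u a • b a : Form n) = b.repr (ℓ f1) a • b a := rfl
    rw [h1, smul_smul, inv_mul_cancel_right₀ (hall1 a)]
    conv_lhs => rw [← b.sum_repr (ℓ g)]
    rw [Finset.sum_eq_single a]
    · intro a' _ hne
      have : b.repr (ℓ g) a' = 0 := by
        by_contra hcon
        exact hne (ha a' hcon)
      rw [this, zero_smul]
    · intro hcon
      exact absurd (Finset.mem_univ _) hcon
  · left
    refine ⟨c, ?_⟩
    rw [hsum]
    exact hc

/-- **The exchange inequality.** -/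
theorem exchange2 (hn : 1 ≤ n) (hb : ∀ a, b a = ℓ (B a)) (hℓ : ∀ i, ℓ i ≠ 0) (hr : ¬ Reducible ℓ)
    (hS : ¬ Simplicial ℓ) :
    ∃ T : Finset (Fin (n + 1) × Fin q), (∀ p ∈ T, b.repr (ℓ p.2) p.1 ≠ 0) ∧
      ∀ F : Finset (Fin q), Proper ℓ F →
        1 - ((n : ℤ) + 1) * (finrank ℂ (Submodule.span ℂ (ℓ '' (F : Set (Fin q)))) -
          (Finset.univ.filter fun a => B a ∈ F).card) ≤
        ∑ p ∈ T, ((if B p.1 ∈ F then 1 else 0) - (if p.2 ∈ F then 1 else 0)) := by
  classical
  obtain ⟨f1, -, hmax⟩ := Finset.exists_max_image (Finset.univ : Finset (Fin q))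
    (fun f => (supp b (ℓ f)).card) ⟨B 0, Finset.mem_univ _⟩
  have h2 : 2 ≤ (supp b (ℓ f1)).card := by
    obtain ⟨f, ⟨a, ha, ha'⟩, a', hna, hna'⟩ := Pool.Agent.W392.CG.cross ℓ b hr {0}
      (Set.singleton_nonempty _) (by
        rw [Set.nonempty_compl]
        intro hc
        have h1 : (⟨1, by omega⟩ : Fin (n + 1)) ∈ ({0} : Set (Fin (n + 1))) := by
          rw [hc]
          trivial
        rw [Set.mem_singleton_iff] at h1
        have := congrArg Fin.val h1
        simp at this)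
    refine le_trans ?_ (hmax f (Finset.mem_univ _))
    have hne : a ≠ a' := by
      rintro rfl
      exact hna ha
    have hsub : {a, a'} ⊆ supp b (ℓ f) := by
      intro x hx
      rcases Finset.mem_insert.1 hx with rfl | hx
      · exact mem_supp.2 ha'
      · rw [Finset.mem_singleton] at hx
        rw [hx]
        exact mem_supp.2 hna'
    have := Finset.card_le_card hsub
    rwa [Finset.card_pair hne] at this
  by_cases hfull : supp b (ℓ f1) = Finset.univ
  · by_cases hg : ∃ g, 2 ≤ (supp b (ℓ g)).card ∧ ∀ c : ℂ, ℓ g ≠ c • ℓ f1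
    · obtain ⟨g, hg1, hg2⟩ := hg
      obtain ⟨T, h3, h4, h5, h6⟩ := full_case hb hfull hg1 hg2
      exact ⟨T, h3, finish hb hℓ hn h3 h4 h5 h6⟩
    · exfalso
      apply hS
      push Not at hg
      refine simplicial_of hb hfull fun g => ?_
      by_cases h7 : 2 ≤ (supp b (ℓ g)).card
      · exact Or.inr (hg g h7)
      · exact Or.inl (by omega)
  · obtain ⟨T, hT, hT2⟩ := good2_univ hb hr (fun f => hmax f (Finset.mem_univ _)) h2 hfull
    refine ⟨T, hT.mem, finish hb hℓ hn hT.mem ?_ hT2 ?_⟩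
    · rintro F hF ⟨a, ha⟩ ⟨a', ha'⟩
      exact hT.pos F hF ⟨a, Finset.mem_univ _, ha⟩ ⟨a', Finset.mem_univ _, ha'⟩
    · intro F
      obtain ⟨j, W, hW1, -, hW3, hW4⟩ := hT.neg F
      rw [Finset.card_univ, Fintype.card_fin] at hW4
      refine ⟨j, hW3.trans (Submodule.finrank_mono hW1), ?_⟩
      unfold negs
      omega

end Pool.Agent.TH756.AR
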