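import Pool.Agent.TH756.AR.Gen
import Pool.Agent.TH152.AC.Fin

/-!
Covers and generically finite maps over an arrangement which is neither reducible nor simplicial.
-/

set_option autoImplicit false

open FF IntermediateField Pool.Agent.W603.LV Pool.Agent.W602.GT Pool.Agent.W602.Cov
open Pool.Agent.W602.Cov.Cover Pool.Agent.W602.Cov.G Pool.Agent.TH152.AC

namespace Pool.Agent.TH756.AR

variable {n q r : ℕ} {K : Type} [Field K] [Algebra ℂ K]

theorem tfae2 (hn : 1 ≤ n) (X : Cover n q r) (hF : X.Free) {x : Fin (n + 1) → K} {y : Fin r → K}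
    (hK : X.FunctionField K x y) (hS : Reducible X.ℓ ∨ ¬ Simplicial X.ℓ) (h : Mult X (n + 1)) :
    [KodGe ℂ K n (fun _ => False) 0, Psef ℂ K n (fun _ => False), ¬ Ruled ℂ K,
          ¬ Reducible X.ℓ].TFAE := by
  obtain ⟨h1, h2, h3⟩ := coords X hK
  tfae_have 1 → 2 := fun hk => psef_of_kodGe hk
  tfae_have 2 → 3 := fun hp hr => not_psef_of_ruled (trdeg_of_basis h3) hr hp
  tfae_have 3 → 4 := fun hu hr => hu (ruled X hF hK hr)
  tfae_have 4 → 1 := fun hr =>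
    kodGe_zeroD (by omega) (Pool.Agent.W392.CG.span_top hn X.ℓ hr)
      (slack_of_not_simplicial hn X.hℓ hr (hS.resolve_left hr)) h1 h2 h3 _
      fun P _ _ => highAt_of_mult X hF hK h P
  tfae_finish

theorem tfae3 (hn : 1 ≤ n) (X : Cover n q r) (hF : X.Free) {x : Fin (n + 1) → K}
    {y : Fin r → K} (hK : X.FunctionField K x y) (hS : Reducible X.ℓ ∨ ¬ Simplicial X.ℓ)
    (h : Mult X (n + 2)) :
    [Psef ℂ K n (fun _ => False), GeneralType ℂ K n, ¬ Ruled ℂ K, ¬ Reducible X.ℓ].TFAE := by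
  obtain ⟨h1, h2, h3⟩ := coords X hK
  tfae_have 2 → 1 := fun hg => psef_of_kodGe (kod_of_general hg)
  tfae_have 1 → 3 := fun hp hr => not_psef_of_ruled (trdeg_of_basis h3) hr hp
  tfae_have 3 → 4 := fun hu hr => hu (ruled X hF hK hr)
  tfae_have 4 → 2 := fun hr => general_of_log
      (logGeneralD (by omega) (Pool.Agent.W392.CG.span_top hn X.ℓ hr)
        (slack_of_not_simplicial hn X.hℓ hr (hS.resolve_left hr)) h1 h2 h3 _
        fun P _ _ => highAt_of_mult X hF hK h P)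
  tfae_finish

theorem over_kodGe2 (hn : 1 ≤ n) {ℓ : Fin q → Form n} (hℓ : ∀ i, ℓ i ≠ 0) (hr : ¬ Reducible ℓ)
    (hS : ¬ Simplicial ℓ) {x : Fin (n + 1) → K} (hx0 : x 0 ≠ 0)
    (hbas : IsTranscendenceBasis ℂ (fun j : Fin n => x j.succ / x 0))
    (h : MultOver ℓ x (n + 1)) : KodGe ℂ K n (fun _ => False) 0 :=
  kodGe_zeroD (by omega) (Pool.Agent.W392.CG.span_top hn ℓ hr)
    (slack_of_not_simplicial hn hℓ hr hS) (fun i => lf_ne hx0 hbas.1 (hℓ i)) hx0 hbas _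
    fun _ hP _ => highAt_of_multOver (Pool.Agent.W392.CG.span_top hn ℓ hr)
      (fun i => lf_ne hx0 hbas.1 (hℓ i)) h hP

theorem over_general2 (hn : 1 ≤ n) {ℓ : Fin q → Form n} (hℓ : ∀ i, ℓ i ≠ 0) (hr : ¬ Reducible ℓ)
    (hS : ¬ Simplicial ℓ) {x : Fin (n + 1) → K} (hx0 : x 0 ≠ 0)
    (hbas : IsTranscendenceBasis ℂ (fun j : Fin n => x j.succ / x 0))
    (h : MultOver ℓ x (n + 2)) : GeneralType ℂ K n :=
  general_of_log <| logGeneralD (by omega) (Pool.Agent.W392.CG.span_top hn ℓ hr)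
    (slack_of_not_simplicial hn hℓ hr hS) (fun i => lf_ne hx0 hbas.1 (hℓ i)) hx0 hbas _
    fun _ hP _ => highAt_of_multOver (Pool.Agent.W392.CG.span_top hn ℓ hr)
      (fun i => lf_ne hx0 hbas.1 (hℓ i)) h hP

end Pool.Agent.TH756.AR
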