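import Pool.Agent.TH756.AR.Exch
import Pool.Agent.TH152.AC.Gen

/-!
Weights with slack `1 / d`, and the orders of the pluricanonical forms which they define.
-/

set_option autoImplicit false

open FF Module Pool.Agent.W603.LV Pool.Agent.W602.GT Pool.Agent.W602.Cov Pool.Agent.W602.Cov.G
open Pool.Agent.W168.CG.PGR Pool.Agent.TH152.AC

namespace Pool.Agent.TH756.AR

variable {n q : ℕ} {ℓ : Fin q → Form n} {K : Type} [Field K] [Algebra ℂ K]

/-- There are weights on the bases with slack `1 / d`. -/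
def Slack (ℓ : Fin q → Form n) (d : ℕ) : Prop :=
  ∃ p : Bases ℓ → ℕ, 0 < ∑ B, p B ∧ ∀ F : Finset (Fin q), Proper ℓ F →
      d * (∑ B, p B * cnt B.1 F) + ∑ B, p B ≤ d * ((∑ B, p B) * rk ℓ F)

/-- an irreducible arrangement has slack `1 / (n + 2)` -/
theorem slack_of_irred (hn : 1 ≤ n) (hℓ : ∀ i, ℓ i ≠ 0) (hr : ¬ Reducible ℓ) :
    Slack ℓ (n + 2) := weights hn hℓ hr

/-- the payoff -/
noncomputable def pay2 (ℓ : Fin q → Form n) (B : Bases ℓ) (F : {F // Proper ℓ F}) : ℤ :=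
  ((n : ℤ) + 1) * (rk ℓ F.1 - cnt B.1 F.1) - 1

theorem dual2 (hn : 1 ≤ n) (hℓ : ∀ i, ℓ i ≠ 0) (hr : ¬ Reducible ℓ) (hS : ¬ Simplicial ℓ)
    (y : {F // Proper ℓ F} → ℚ) (hy : ∀ F, 0 ≤ y F) :
    ∃ B : Bases ℓ, 0 ≤ ∑ F, y F * (pay2 ℓ B F : ℚ) := by
  classical
  obtain ⟨B1⟩ := exists_bases (Pool.Agent.W392.CG.span_top hn ℓ hr)
  let w : Fin q → ℚ := fun i => ∑ F : {F // Proper ℓ F}, y F * (if i ∈ F.1 then 1 else 0)
  obtain ⟨B, -, hB⟩ := Finset.exists_min_image (Finset.univ : Finset (Bases ℓ))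
    (fun B => ∑ a, w (B.1 a)) ⟨B1, Finset.mem_univ _⟩
  refine ⟨B, ?_⟩
  obtain ⟨T, hT1, hT2⟩ := exchange2 (ℓ := ℓ) (b := bas B) (B := B.1) hn (bas_apply B) hℓ hr hS
  -- minimality
  have hmin : ∀ p ∈ T, w (B.1 p.1) ≤ w p.2 := by
    intro p hp
    have h1 := hB ⟨_, update_bases B (hT1 p hp)⟩ (Finset.mem_univ _)
    rw [sum_update] at h1
    rw [← Finset.add_sum_erase Finset.univ (fun a => w (B.1 a)) (Finset.mem_univ p.1)] at h1
    linarith
  have hsum : ∑ p ∈ T, (w (B.1 p.1) - w p.2) ≤ 0 :=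
    Finset.sum_nonpos fun p hp => by linarith [hmin p hp]
  have heq : ∑ p ∈ T, (w (B.1 p.1) - w p.2) = ∑ F : {F // Proper ℓ F}, y F *
      ((∑ p ∈ T, ((if B.1 p.1 ∈ F.1 then 1 else 0) - (if p.2 ∈ F.1 then 1 else 0)) : ℤ) : ℚ) := by
    simp only [w]
    simp_rw [← Finset.sum_sub_distrib, ← mul_sub]
    rw [Finset.sum_comm]
    refine Finset.sum_congr rfl fun F _ => ?_
    rw [← Finset.mul_sum]
    push_cast
    rfl
  rw [heq] at hsum
  have hle : ∀ F : {F // Proper ℓ F}, - (y F * (pay2 ℓ B F : ℚ)) ≤ y F *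
      ((∑ p ∈ T, ((if B.1 p.1 ∈ F.1 then 1 else 0) - (if p.2 ∈ F.1 then 1 else 0)) : ℤ) : ℚ) := by
    intro F
    rw [← mul_neg]
    refine mul_le_mul_of_nonneg_left ?_ (hy F)
    have h1 := hT2 F.1 F.2
    have h2 : -pay2 ℓ B F ≤ ∑ p ∈ T, ((if B.1 p.1 ∈ F.1 then 1 else 0) -
        (if p.2 ∈ F.1 then 1 else 0)) := by
      refine le_trans (le_of_eq ?_) h1
      unfold pay2 rk cnt
      ring
    exact_mod_cast h2
  have h3 : ∑ F : {F // Proper ℓ F}, - (y F * (pay2 ℓ B F : ℚ)) ≤ 0 :=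
    le_trans (Finset.sum_le_sum fun F _ => hle F) hsum
  rw [Finset.sum_neg_distrib] at h3
  linarith

/-- **The slack `1 / (n + 1)`** of an irreducible arrangement which does not consist of `n + 2`
hyperplanes in general position. -/
theorem slack_of_not_simplicial (hn : 1 ≤ n) (hℓ : ∀ i, ℓ i ≠ 0) (hr : ¬ Reducible ℓ)
    (hS : ¬ Simplicial ℓ) : Slack ℓ (n + 1) := by
  classical
  obtain ⟨p, hp1, hp2⟩ := game (pay2 ℓ) (dual2 hn hℓ hr hS)
  refine ⟨p, hp1, fun F hF => ?_⟩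
  have h1 := hp2 ⟨F, hF⟩
  have h2 : ∑ B, (p B : ℤ) * pay2 ℓ B ⟨F, hF⟩ = ((n : ℤ) + 1) * ((∑ B, (p B : ℤ)) * rk ℓ F) -
      (((n : ℤ) + 1) * (∑ B, (p B : ℤ) * cnt B.1 F) + ∑ B, (p B : ℤ)) := by
    unfold pay2
    rw [Finset.sum_mul, Finset.mul_sum, Finset.mul_sum, ← Finset.sum_add_distrib,
      ← Finset.sum_sub_distrib]
    refine Finset.sum_congr rfl fun B _ => ?_
    ring
  rw [h2] at h1
  have h3 : ((n : ℤ) + 1) * (∑ B, (p B : ℤ) * cnt B.1 F) + ∑ B, (p B : ℤ) ≤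
      ((n : ℤ) + 1) * ((∑ B, (p B : ℤ)) * rk ℓ F) := by linarith
  exact_mod_cast h3

/-- **The inequality for the orders.** -/
theorem ordersD (d : ℕ) (p : Bases ℓ → ℕ) (hp : ∀ F : Finset (Fin q), Proper ℓ F →
      d * (∑ B, p B * cnt B.1 F) + ∑ B, p B ≤ d * ((∑ B, p B) * rk ℓ F))
    (hne : Nonempty (Bases ℓ)) (v : Fin q → ℕ)
    (hv : Submodule.span ℂ (ℓ '' {i | v i ≠ 0}) ≠ ⊤) :
    ∃ B' : Bases ℓ, ∀ i, d * (∑ B, p B * ∑ a, v (B.1 a)) + (∑ B, p B) * v i ≤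
      d * ((∑ B, p B) * ∑ a, v (B'.1 a)) := by
  classical
  obtain ⟨B1⟩ := hne
  obtain ⟨B', -, hmax⟩ := Finset.exists_max_image (Finset.univ : Finset (Bases ℓ))
    (fun B => ∑ a, v (B.1 a)) ⟨B1, Finset.mem_univ _⟩
  refine ⟨B', fun i0 => ?_⟩
  obtain ⟨T0, hT0⟩ : ∃ T0 : ℕ, ∀ i, v i ≤ T0 :=
    ⟨∑ i, v i, fun i => Finset.single_le_sum (f := v) (fun _ _ => Nat.zero_le _)
      (Finset.mem_univ i)⟩
  set N := ∑ B, p B with hN
  let F : ℕ → Finset (Fin q) := fun t => Finset.univ.filter fun i => t ≤ v i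
  have hFmem : ∀ t i, i ∈ F t ↔ t ≤ v i := by
    intro t i
    simp [F]
  have hclaim : ∀ t ∈ Finset.Icc 1 T0,
      d * (∑ B, p B * cnt B.1 (F t)) + N * (if t ≤ v i0 then 1 else 0) ≤
        d * (N * cnt B'.1 (F t)) := by
    intro t ht
    have ht1 : 1 ≤ t := (Finset.mem_Icc.mp ht).1
    have hfill : rk ℓ (F t) ≤ cnt B'.1 (F t) := fill v B' (fun B => hmax B (Finset.mem_univ _)) t
    by_cases hti : t ≤ v i0
    · rw [if_pos hti, mul_one]
      have hprop : Proper ℓ (F t) := by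
        refine ⟨⟨i0, (hFmem t i0).2 hti⟩, fun htop => hv ?_⟩
        rw [eq_top_iff, ← htop]
        apply Submodule.span_mono
        apply Set.image_mono
        intro i hi
        have hi' : t ≤ v i := (hFmem t i).1 hi
        show v i ≠ 0
        omega
      refine (hp (F t) hprop).trans ?_
      exact Nat.mul_le_mul_left _ (Nat.mul_le_mul_left _ hfill)
    · rw [if_neg hti, mul_zero, add_zero]
      refine Nat.mul_le_mul_left _ ?_
      rw [hN, Finset.sum_mul]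
      refine Finset.sum_le_sum fun B _ => Nat.mul_le_mul_left _ ((cnt_le_rk B _).trans hfill)
  have hsum := Finset.sum_le_sum hclaim
  have hlay : ∀ B : Bases ℓ, ∑ t ∈ Finset.Icc 1 T0, cnt B.1 (F t) = ∑ a, v (B.1 a) := by
    intro B
    have e1 : ∀ t, cnt B.1 (F t) = ∑ a, (if t ≤ v (B.1 a) then 1 else 0) := by
      intro t
      unfold cnt
      rw [Finset.card_filter]
      refine Finset.sum_congr rfl fun a _ => ?_
      simp only [hFmem]
    rw [Finset.sum_congr rfl fun t _ => e1 t, Finset.sum_comm]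
    exact Finset.sum_congr rfl fun a _ => (layer (v (B.1 a)) T0 (hT0 _)).symm
  rw [Finset.sum_add_distrib, ← Finset.mul_sum, ← Finset.mul_sum, ← Finset.mul_sum,
    ← Finset.mul_sum, hlay B', ← layer (v i0) T0 (hT0 i0), Finset.sum_comm] at hsum
  simp_rw [← Finset.mul_sum, hlay] at hsum
  exact hsum

/-- the order of the forms: normalised coordinates -/
theorem pf_ordD (d : ℕ) (p : Bases ℓ → ℕ) (hp : ∀ F : Finset (Fin q), Proper ℓ F →
      d * (∑ B, p B * cnt B.1 F) + ∑ B, p B ≤ d * ((∑ B, p B) * rk ℓ F))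
    (hspan : Submodule.span ℂ (Set.range ℓ) = ⊤) (t : ℕ) {x : Fin (n + 1) → K}
    (hx : ∀ i, lf (ℓ i) x ≠ 0) (P : Place ℂ K) (v : Fin q → ℕ)
    (hord : ∀ i, P.ord (lf (ℓ i) x) = v i) (i1 : Fin q) (hi1 : v i1 = 0)
    (D : Fin n → Derivation ℂ K K) (e : ℕ)
    (h1 : ∀ f : Fin (n + 1) → K, (∀ j, f j ≠ 0) → Ge P ((∑ j, P.ord (f j)) - e) (bw D f))
    (h2 : ∀ f : Fin (n + 1) → K, (∀ j, P.Reg (f j)) → P.Reg (bw D f)) :
    (∀ j, Ge P 0 (x j)) ∧ ∃ c : ℤ, Ge P c (pf ℓ x p t D) ∧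
      ((v = 0 ∧ 0 ≤ c) ∨ (v ≠ 0 ∧ Submodule.span ℂ (ℓ '' {i | v i ≠ 0}) ≠ ⊤ ∧
        ∀ i, (t * (∑ B, p B) * v i : ℤ) ≤ d * (c + e * (t * ∑ B, p B)))) := by
  have hreg : ∀ j, Ge P 0 (x j) := by
    intro j
    have h3 := ge_span P 0 (Set.range ℓ) x (by
      rintro _ ⟨i, rfl⟩
      right
      rw [hord i]
      positivity) (LinearMap.proj j) (by rw [hspan]; trivial)
    rwa [lf_proj] at h3
  refine ⟨hreg, ?_⟩
  have hord' := ord_den P hx p t
  simp only [hord] at hord'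
  by_cases hv0 : v = 0
  · have h3 : Ge P 0 (bw D x) := h2 x hreg
    have h4 := ge_div (den_ne hx p t) (h3.pow (t * ∑ B, p B))
    rw [hord', hv0] at h4
    refine ⟨0, ?_, Or.inl ⟨hv0, le_rfl⟩⟩
    simpa [pf] using h4
  · -- the support does not span
    have hsp : Submodule.span ℂ (ℓ '' {i | v i ≠ 0}) ≠ ⊤ := by
      intro htop
      have h3 := ge_span P 1 (ℓ '' {i | v i ≠ 0}) x (by
        rintro _ ⟨i, hi, rfl⟩
        right
        rw [hord i]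
        have : v i ≠ 0 := hi
        omega) (ℓ i1) (by rw [htop]; trivial)
      rcases h3 with h3 | h3
      · exact hx i1 h3
      · rw [hord i1, hi1] at h3
        norm_num at h3
    obtain ⟨B', hB'⟩ := ordersD d p hp (exists_bases hspan) v hsp
    -- the order of the determinant
    have hbw : Ge P ((∑ a, (v (B'.1 a) : ℤ)) - e) (bw D x) := by
      obtain ⟨c, hc⟩ : ∃ c : Matrix (Fin (n + 1)) (Fin (n + 1)) ℂ,
        c = Matrix.of fun a j : Fin (n + 1) => ℓ (B'.1 a) (Pi.single j 1) := ⟨_, rfl⟩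
      have hdet : c.det ≠ 0 := by
        rw [hc]
        exact det_ne_zero (m := fun a => ℓ (B'.1 a)) B'.2
      have e1 : bw D (fun a => lf (ℓ (B'.1 a)) x) = algebraMap ℂ K c.det * bw D x := by
        rw [← (bwa n K).2.2 c D x, hc]
        rfl
      have h3 := h1 (fun a => lf (ℓ (B'.1 a)) x) (fun a => hx (B'.1 a))
      rw [e1] at h3
      simp only [hord] at h3
      have h4 := (Ge.const (P := P) (c.det)⁻¹).mul h3
      rw [← mul_assoc, ← map_mul, inv_mul_cancel₀ hdet, map_one, one_mul, zero_add] at h4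
      exact h4
    have h5 := ge_div (den_ne hx p t) (hbw.pow (t * ∑ B, p B))
    rw [hord'] at h5
    refine ⟨_, h5, Or.inr ⟨hv0, hsp, fun i => ?_⟩⟩
    have h6 : (d : ℤ) * (∑ B, (p B : ℤ) * ∑ a, (v (B.1 a) : ℤ)) +
        (∑ B, (p B : ℤ)) * v i ≤ d * ((∑ B, (p B : ℤ)) * ∑ a, (v (B'.1 a) : ℤ)) := by
      exact_mod_cast hB' i
    have h7 := mul_le_mul_of_nonneg_left h6 (by positivity : (0 : ℤ) ≤ t)
    push_cast
    nlinarith [h7]

/-- the general case: the orders `a + v i` -/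
theorem pf_ordD' (d : ℕ) (p : Bases ℓ → ℕ) (hp : ∀ F : Finset (Fin q), Proper ℓ F →
      d * (∑ B, p B * cnt B.1 F) + ∑ B, p B ≤ d * ((∑ B, p B) * rk ℓ F))
    (hspan : Submodule.span ℂ (Set.range ℓ) = ⊤) (t : ℕ) {x : Fin (n + 1) → K}
    (hx : ∀ i, lf (ℓ i) x ≠ 0) (P : Place ℂ K) (i0 : Fin q)
    (D : Fin n → Derivation ℂ K K) (e : ℕ)
    (h1 : ∀ f : Fin (n + 1) → K, (∀ j, f j ≠ 0) → Ge P ((∑ j, P.ord (f j)) - e) (bw D f))
    (h2 : ∀ f : Fin (n + 1) → K, (∀ j, P.Reg (f j)) → P.Reg (bw D f)) :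
    ∃ (a : ℤ) (v : Fin q → ℕ), (∀ i, P.ord (lf (ℓ i) x) = a + v i) ∧ (∀ j, Ge P a (x j)) ∧
      ∃ c : ℤ, Ge P c (pf ℓ x p t D) ∧
      ((v = 0 ∧ 0 ≤ c) ∨ (v ≠ 0 ∧ Submodule.span ℂ (ℓ '' {i | v i ≠ 0}) ≠ ⊤ ∧
        ∀ i, (t * (∑ B, p B) * v i : ℤ) ≤ d * (c + e * (t * ∑ B, p B)))) := by
  obtain ⟨i1, -, hmin⟩ := Finset.exists_min_image Finset.univ (fun i => P.ord (lf (ℓ i) x))
    ⟨i0, Finset.mem_univ _⟩
  obtain ⟨a, ha⟩ : ∃ a, a = P.ord (lf (ℓ i1) x) := ⟨_, rfl⟩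
  let v : Fin q → ℕ := fun i => (P.ord (lf (ℓ i) x) - a).toNat
  have hvi : ∀ i, P.ord (lf (ℓ i) x) = a + v i := by
    intro i
    have h3 := hmin i (Finset.mem_univ i)
    have h4 : (v i : ℤ) = P.ord (lf (ℓ i) x) - a := by
      show (((P.ord (lf (ℓ i) x) - a).toNat : ℕ) : ℤ) = _
      rw [Int.toNat_of_nonneg]
      rw [ha]
      linarith
    rw [h4]
    ring
  have hi1 : v i1 = 0 := by
    have := hvi i1
    omega
  obtain ⟨π, hπ0, hπ⟩ := P.surj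
  have hlam : π ^ (-a) ≠ 0 := zpow_ne_zero _ hπ0
  have hordlam : P.ord (π ^ (-a)) = -a := by rw [P.ord_zpow, hπ, mul_one]
  obtain ⟨h3, c, h4, h5⟩ := pf_ordD d p hp hspan t (x := fun j => π ^ (-a) * x j) (fun i => by
    rw [lf_mul]
    exact mul_ne_zero hlam (hx i)) P v (fun i => by
    rw [lf_mul, P.ord_mul hlam (hx i), hordlam, hvi i]
    ring) i1 hi1 D e h1 h2
  rw [pf_scale x p t D hlam] at h4
  refine ⟨a, v, hvi, fun j => ?_, c, h4, h5⟩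
  have h6 := Ge.of_mul hlam (h3 j)
  rw [hordlam] at h6
  simpa using h6

end Pool.Agent.TH756.AR
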